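import Pool.Agent.W516.MTR.Defs
import Pool.Agent.W516.MTH.Sv

/-!
# Hoffman's basis conjecture and the single-valued matrix
-/

set_option autoImplicit false
set_option linter.unusedSectionVars false

namespace Pool.Agent.W516.MTR

open Matrix Pool.Agent.W516.MTZ Pool.Agent.W516.MTH

variable {m X : Type} [Fintype m] [DecidableEq m] [Fintype X] [DecidableEq X]

theorem per_mul (a : m → ℚ) (g h : Matrix m m ℂ) : per a (g * h) = per a g ᵥ* h := by
  funext j
  simp only [per, vecMul, dotProduct, Matrix.mul_apply, Finset.mul_sum, Finset.sum_mul]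
  rw [Finset.sum_comm]
  refine Finset.sum_congr rfl fun i _ => Finset.sum_congr rfl fun k _ => ?_
  ring

/-- The space of the vectors which satisfy all relations. -/
def RSat (M : Motive m X) (z : m → ℂ) : Submodule ℂ (m → ℂ) where
  carrier := {v | RowSatisfies M z v}
  zero_mem' := by
    intro n c _ _
    simp
  add_mem' := by
    intro v w hv hw n c hc h
    have h1 := hv n c hc h
    have h2 := hw n c hc h
    simp only [Pi.add_apply, mul_add, Finset.sum_add_distrib]
    rw [h1, h2, add_zero]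
  smul_mem' := by
    intro e v hv n c hc h
    have h1 := hv n c hc h
    have h2 : ∀ j, (c j : ℂ) * (e • v) j = e * ((c j : ℂ) * v j) := by
      intro j
      rw [Pi.smul_apply, smul_eq_mul]
      ring
    simp only [h2]
    rw [← Finset.mul_sum, h1, mul_zero]

theorem mem_RSat {M : Motive m X} {z v : m → ℂ} : v ∈ RSat M z ↔ RowSatisfies M z v := Iff.rfl

/-- The subgroup of the elements of the motivic Galois group which preserve a space of rows. -/
def RStab (M : Motive m X) (L : Submodule ℂ (m → ℂ)) : Subgroup (Matrix m m ℂ)ˣ where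
  carrier := {g | g ∈ M.gp ∧ ∀ v ∈ L, v ᵥ* (g : Matrix m m ℂ) ∈ L}
  one_mem' := ⟨Subgroup.one_mem _, fun v hv => by rwa [Units.val_one, vecMul_one]⟩
  mul_mem' := by
    rintro a b ⟨ha, ha'⟩ ⟨hb, hb'⟩
    refine ⟨Subgroup.mul_mem _ ha hb, fun v hv => ?_⟩
    rw [Units.val_mul, ← vecMul_vecMul]
    exact hb' _ (ha' _ hv)
  inv_mem' := by
    rintro a ⟨ha, ha'⟩
    refine ⟨Subgroup.inv_mem _ ha, fun v hv => ?_⟩
    let f : L →ₗ[ℂ] L :=
      { toFun := fun w => ⟨(w : m → ℂ) ᵥ* (a : Matrix m m ℂ), ha' _ w.2⟩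
        map_add' := fun w w' => Subtype.ext (by simp [add_vecMul])
        map_smul' := fun e w => Subtype.ext (by simp [smul_vecMul]) }
    have hinj : Function.Injective f := by
      intro w w' h
      have h1 := congrArg (fun C : L => (C : m → ℂ)) h
      have h2 : (w : m → ℂ) ᵥ* (a : Matrix m m ℂ) = (w' : m → ℂ) ᵥ* (a : Matrix m m ℂ) := h1
      have h3 := congrArg (fun C => C ᵥ* ((a⁻¹ : (Matrix m m ℂ)ˣ) : Matrix m m ℂ)) h2
      simp only [vecMul_vecMul, Units.mul_inv, vecMul_one] at h3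
      exact Subtype.ext h3
    obtain ⟨w, hw⟩ := (LinearMap.injective_iff_surjective.1 hinj) ⟨v, hv⟩
    have h2 : (w : m → ℂ) ᵥ* (a : Matrix m m ℂ) = v :=
      congrArg (fun C : L => (C : m → ℂ)) hw
    rw [← h2, vecMul_vecMul, Units.mul_inv, vecMul_one]
    exact w.2

theorem dg_mem_RStab (M : Motive m X) (z : m → ℂ) (μ : ℂˣ) : dg M μ ∈ RStab M (RSat M z) := by
  refine ⟨dg_mem M μ, fun v hv n c hc hc0 => ?_⟩
  have h2 := hv n c hc hc0
  have h3 : ∀ j, (c j : ℂ) * (v ᵥ* (dg M μ : Matrix m m ℂ)) j = (μ : ℂ) ^ n * ((c j : ℂ) * v j) := by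
    intro j
    rw [dg_val, vecMul_diagonal]
    by_cases h4 : c j = 0
    · rw [h4]
      simp
    · rw [hc j h4]
      ring
  simp only [h3, ← Finset.mul_sum]
  rw [h2, mul_zero]

/-- The homogeneous relations between the periods are motivic. -/
def Mot (M : Motive m X) (a : m → ℚ) (p : Matrix m m ℂ) : Prop :=
  ∀ g ∈ M.gp, RowSatisfies M (per a p) (per a ((g : (Matrix m m ℂ)ˣ) : Matrix m m ℂ))

theorem basis_iff {M : Motive m X} {p : (Matrix m m ℂ)ˣ} (hp : p ∈ M.gp) (a : m → ℚ) (J : Set m)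
    (hJ : IsMotivicBasis M a J) :
    (∀ n, LinearIndependent ℚ
      (fun j : {j : m // j ∈ J ∧ M.wt j = n} => per a (p : Matrix m m ℂ) j)) ↔
      Mot M a (p : Matrix m m ℂ) := by
  classical
  obtain ⟨hJ1, hJ2⟩ := hJ
  constructor
  · intro h g hg n c hc hc0
    -- the combination of motivic periods is a combination of those in `J`
    have h1 : ∑ j, c j • mper M a j ∈
        Submodule.span ℚ (Set.range fun k : {j : m // j ∈ J ∧ M.wt j = n} => mper M a k) := by
      refine Submodule.sum_mem _ fun j _ => ?_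
      by_cases hj : c j = 0
      · rw [hj, zero_smul]
        exact Submodule.zero_mem _
      · refine Submodule.smul_mem _ _ (Submodule.span_mono ?_ (hJ2 j))
        rintro F ⟨k, hk, hkj, rfl⟩
        exact ⟨⟨k, hk, hkj.trans (hc j hj)⟩, rfl⟩
    rw [Submodule.mem_span_range_iff_exists_fun] at h1
    obtain ⟨d, hd⟩ := h1
    have h2 : ∀ g' : M.gp, ∑ k, (d k : ℂ) * mper M a (k : m) g' =
        ∑ j, (c j : ℂ) * mper M a j g' := by
      intro g'
      have h3 := congrFun hd g'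
      rw [Finset.sum_apply, Finset.sum_apply] at h3
      simpa only [Pi.smul_apply, Rat.smul_def] using h3
    have h3 : ∑ k, d k • per a (p : Matrix m m ℂ) (k : m) = 0 := by
      have h4 := h2 ⟨p, hp⟩
      have h5 : ∑ j, (c j : ℂ) * mper M a j ⟨p, hp⟩ = 0 := hc0
      rw [h5] at h4
      have h6 : ∑ k : {j : m // j ∈ J ∧ M.wt j = n}, (d k : ℂ) * per a (p : Matrix m m ℂ) (k : m) =
        0 := h4
      simpa only [Rat.smul_def] using h6
    have h4 := Fintype.linearIndependent_iff.1 (h n) d h3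
    have h5 := h2 ⟨g, hg⟩
    have h6 : ∑ k, (d k : ℂ) * mper M a (k : m) ⟨g, hg⟩ = 0 :=
      Finset.sum_eq_zero fun k _ => by rw [h4 k, Rat.cast_zero, zero_mul]
    rw [h6] at h5
    exact h5.symm
  · intro h n
    rw [Fintype.linearIndependent_iff]
    intro d hd
    set c : m → ℚ := fun j => if hj : j ∈ J ∧ M.wt j = n then d ⟨j, hj⟩ else 0 with hc
    have hsum : ∀ f : m → ℂ, ∑ j, (c j : ℂ) * f j =
        ∑ k : {j : m // j ∈ J ∧ M.wt j = n}, (d k : ℂ) * f k := by
      intro f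
      rw [← Fintype.sum_subtype_add_sum_subtype (fun j => j ∈ J ∧ M.wt j = n)
        (fun j => (c j : ℂ) * f j)]
      have h1 : ∑ k : {j : m // ¬(j ∈ J ∧ M.wt j = n)}, (c k : ℂ) * f k = 0 := by
        refine Finset.sum_eq_zero fun k _ => ?_
        have h2 : c k = 0 := by
          rw [hc]
          exact dif_neg k.2
        rw [h2, Rat.cast_zero, zero_mul]
      rw [h1, add_zero]
      refine Finset.sum_congr rfl fun k _ => ?_
      have h2 : c k = d k := by
        rw [hc]
        exact dif_pos k.2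
      rw [h2]
    have hc1 : ∀ j, c j ≠ 0 → M.wt j = n := by
      intro j hj
      by_contra hjn
      apply hj
      rw [hc]
      exact dif_neg fun h => hjn h.2
    have hc0 : ∑ j, (c j : ℂ) * per a (p : Matrix m m ℂ) j = 0 := by
      rw [hsum]
      simpa only [Rat.smul_def] using hd
    have hli := hJ1.comp (fun k : {j : m // j ∈ J ∧ M.wt j = n} => (⟨k, k.2.1⟩ : J))
      (fun k k' hk => Subtype.ext (congrArg (fun x : J => (x : m)) hk))
    rw [Fintype.linearIndependent_iff] at hli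
    refine hli d ?_
    funext g
    have h1 := h g g.2 n c hc1 hc0
    rw [hsum] at h1
    rw [Finset.sum_apply]
    have h2 : ∑ k : {j : m // j ∈ J ∧ M.wt j = n}, (d k : ℂ) * mper M a (k : m) g = 0 := h1
    simpa only [Pi.smul_apply, Rat.smul_def, Function.comp, Pi.zero_apply] using h2

/-- The matrix with the rows `v`. -/
def rowM (v : m → ℂ) : Matrix m m ℂ := Matrix.of fun _ j => v j

theorem rowM_apply (v : m → ℂ) (i j : m) : rowM v i j = v j := rfl

/-- A row of a matrix. -/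
def rowL (i : m) : Matrix m m ℂ →ₗ[ℂ] (m → ℂ) where
  toFun A := fun j => A i j
  map_add' A B := rfl
  map_smul' c A := rfl

theorem span_rows {M : Motive m X} {a : m → ℚ} {p : (Matrix m m ℂ)ˣ} (hp : p ∈ M.gp)
    {v : m → ℂ} (hv : RowSatisfies M (per a (p : Matrix m m ℂ)) v) :
    v ∈ Submodule.span ℂ
      {w : m → ℂ | ∃ g ∈ M.gp, w = per a ((g : (Matrix m m ℂ)ˣ) : Matrix m m ℂ)} := by
  set G : Set (Matrix m m ℂ) := {A | ∃ g ∈ M.gp,
    A = rowM (per a ((g : (Matrix m m ℂ)ˣ) : Matrix m m ℂ))} with hG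
  have h1 : rowM v ∈ Submodule.span ℂ G := by
    refine Pool.Agent.W351.MTH.T_SPAN m M.wt G ?_ ?_ _ ?_
    · rintro σ _ ⟨g, hg, rfl⟩
      refine ⟨sg σ g, sg_mem M σ hg, ?_⟩
      ext i j
      rw [Matrix.map_apply, rowM_apply, rowM_apply]
      simp only [per, map_sum, map_mul, map_ratCast, sg_apply]
    · rintro μ hμ _ ⟨g, hg, rfl⟩
      refine ⟨g * dg M (Units.mk0 μ hμ), Subgroup.mul_mem _ hg (dg_mem M _), ?_⟩
      ext i j
      rw [mul_diagonal, rowM_apply, rowM_apply, Units.val_mul, per_mul, dg_val, vecMul_diagonal,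
        Units.val_mk0]
    · intro n c hc hc0
      have h2 : ∀ w : m → ℂ, ∑ i, ∑ j, (c i j : ℂ) * w j =
          ∑ j, ((∑ i, c i j : ℚ) : ℂ) * w j := by
        intro w
        rw [Finset.sum_comm]
        refine Finset.sum_congr rfl fun j _ => ?_
        rw [Rat.cast_sum, Finset.sum_mul]
      simp only [rowM_apply]
      rw [h2 v]
      refine hv n (fun j => ∑ i, c i j) (fun j hj => ?_) ?_
      · obtain ⟨i, -, hi⟩ := Finset.exists_ne_zero_of_sum_ne_zero hj
        exact hc i j hi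
      · rw [← h2]
        exact hc0 _ ⟨p, hp, rfl⟩
  have h2 : Submodule.span ℂ G ≤ (Submodule.span ℂ
      {w : m → ℂ | ∃ g ∈ M.gp, w = per a ((g : (Matrix m m ℂ)ˣ) : Matrix m m ℂ)}).comap
      (rowL M.o) := by
    rw [Submodule.span_le]
    rintro _ ⟨g, hg, rfl⟩
    exact Submodule.subset_span ⟨g, hg, rfl⟩
  exact h2 h1

theorem mot_iff {M : Motive m X} {p : (Matrix m m ℂ)ˣ} (hp : p ∈ M.gp) (a : m → ℚ)
    (hdeg : ∀ x, Odd (M.deg x) ∧ 3 ≤ M.deg x) (hinj : Function.Injective M.deg)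
    (hpi : (p : Matrix m m ℂ) M.t M.t = 2 * Real.pi * Complex.I)
    (hzeta : ∀ x, (p : Matrix m m ℂ) M.o (M.s x) = riemannZeta (M.deg x)) :
    Mot M a (p : Matrix m m ℂ) ↔ ∀ v : m → ℂ, RowSatisfies M (per a (p : Matrix m m ℂ)) v →
      RowSatisfies M (per a (p : Matrix m m ℂ))
        (v ᵥ* (((p⁻¹ : (Matrix m m ℂ)ˣ) : Matrix m m ℂ) *
          (p : Matrix m m ℂ).map (starRingEnd ℂ))) := by
  have hs_val : ((p⁻¹ * sg cj p : (Matrix m m ℂ)ˣ) : Matrix m m ℂ) =
      ((p⁻¹ : (Matrix m m ℂ)ˣ) : Matrix m m ℂ) * (p : Matrix m m ℂ).map (starRingEnd ℂ) := by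
    rw [Units.val_mul]
    rfl
  have hsgp : p⁻¹ * sg cj p ∈ M.gp :=
    Subgroup.mul_mem _ (Subgroup.inv_mem _ hp) (sg_mem M cj hp)
  constructor
  · intro h v hv
    rw [← hs_val]
    have h1 := span_rows hp hv
    have h2 : Submodule.span ℂ
        {w : m → ℂ | ∃ g ∈ M.gp, w = per a ((g : (Matrix m m ℂ)ˣ) : Matrix m m ℂ)} ≤
        (RSat M (per a (p : Matrix m m ℂ))).comap
          (Matrix.vecMulLinear ((p⁻¹ * sg cj p : (Matrix m m ℂ)ˣ) : Matrix m m ℂ)) := by
      rw [Submodule.span_le]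
      rintro _ ⟨g, hg, rfl⟩
      have h3 := h (g * (p⁻¹ * sg cj p)) (Subgroup.mul_mem _ hg hsgp)
      rw [Units.val_mul, per_mul] at h3
      exact h3
    exact h2 h1
  · intro h
    have hH : RStab M (RSat M (per a (p : Matrix m m ℂ))) ≤ M.gp := fun g hg => hg.1
    have hs : p⁻¹ * sg cj p ∈ RStab M (RSat M (per a (p : Matrix m m ℂ))) := by
      refine ⟨hsgp, fun v hv => ?_⟩
      rw [hs_val]
      exact h v hv
    have hle := gp_le_conj hH (dg_mem_RStab M _) hp cj hs hinj (conj_ne hdeg hpi hzeta)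
    intro g hg
    have h1 := (hle (Subgroup.mul_mem _ (Subgroup.inv_mem _ hp) hg)).2
      (per a (p : Matrix m m ℂ)) (fun n c _ h0 => h0)
    rw [← per_mul, ← Units.val_mul, mul_inv_cancel_left] at h1
    exact h1

end Pool.Agent.W516.MTR
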