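import Pool.Agent.W516.MTZ.Defs

/-!
# The periods of a mixed Tate motive along a rational functional
-/

set_option autoImplicit false

namespace Pool.Agent.W516.MTR

open Matrix Pool.Agent.W516.MTZ

variable {m X : Type} [Fintype m] [DecidableEq m] [Fintype X] [DecidableEq X]

/-- The period `∑ i, a i * g i j` of the basis vector `j` along the rational functional `a`. -/
noncomputable def per (a : m → ℚ) (g : Matrix m m ℂ) (j : m) : ℂ := ∑ i, (a i : ℂ) * g i j

/-- The motivic period of the basis vector `j` along `a`, a function on the torsor of motivic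
periods. -/
noncomputable def mper (M : Motive m X) (a : m → ℚ) (j : m) : M.gp → ℂ :=
  fun g => per a ((g : (Matrix m m ℂ)ˣ) : Matrix m m ℂ) j

/-- The motivic periods of the basis vectors in `J` are a basis over `ℚ` of the space of all
motivic periods along `a`, weight by weight. -/
def IsMotivicBasis (M : Motive m X) (a : m → ℚ) (J : Set m) : Prop :=
  LinearIndependent ℚ (fun j : J => mper M a j) ∧
    ∀ j, mper M a j ∈ Submodule.span ℚ {F | ∃ k ∈ J, M.wt k = M.wt j ∧ F = mper M a k}

/-- The vector `v` satisfies all linear relations with rational coefficients between entries of `z`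
of the same weight. -/
def RowSatisfies (M : Motive m X) (z v : m → ℂ) : Prop :=
  ∀ (n : ℕ) (c : m → ℚ), (∀ j, c j ≠ 0 → M.wt j = n) →
    ∑ j, (c j : ℂ) * z j = 0 → ∑ j, (c j : ℂ) * v j = 0

end Pool.Agent.W516.MTR
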